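import Pool.Agent.H60.CA.SC

/-! HF: the suprema at limit steps are not in the stationary sets. -/

set_option linter.unusedVariables false

open Ordinal Order Set
open scoped ZFSet

namespace CAA.H60

open SF CAA

/-- elementary maps transfer definable relations -/
theorem led {R : (V → Prop) → (ℕ → V) → Prop} (hR : Dfb ZFm R) {N' N f : V}
    (h : IsElem N' N f) (k' : ZFm (· ∈ N')) (k : ZFm (· ∈ N)) (v : ℕ → V)
    (hv : ∀ i, v i ∈ N') : R (· ∈ N') v ↔ R (· ∈ N) fun i => app f (v i) := by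
  obtain ⟨φ, hφ⟩ := hR
  exact (hφ _ k' v hv).symm.trans ((h.el φ v hv).trans
    (hφ _ k _ fun i => app_mem h.func (hv i)))

/-- elementary maps commute with definable functions -/
theorem let' {F : (V → Prop) → (ℕ → V) → V} (hF : Tm ZFm F) {N' N f : V}
    (h : IsElem N' N f) (k' : ZFm (· ∈ N')) (k : ZFm (· ∈ N)) (v : ℕ → V)
    (hv : ∀ i, v i ∈ N') : app f (F (· ∈ N') v) = F (· ∈ N) fun i => app f (v i) :=
  (led hF.2 h k' k (cons (F (· ∈ N') v) v)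
    (In.cons (M := (· ∈ N')) hv (hF.1 _ k' v hv))).1 rfl

/-- the data of the theorem -/
structure Ctx (D : Dat) (i ρ : Ordinal.{0}) (a' : V) (m k δ : Ordinal.{0}) : Prop where
  ok : D.Ok
  iκ : i < D.κ
  ρμ : ρ < D.μ i
  aχ : a' ∈ LA ∅ D.χ
  mρ : m ≤ ρ
  lim : IsSuccLimit m
  ik : i ≤ k
  kκ : k < D.κ
  δμ : δ < D.μ k
  h1 : ∀ ξ < δ, ∃ f ∈ Hc (LA ∅ D.χ) (par D a' ρ) m.toZFSet, ∃ η < D.μ k,
    app f k.toZFSet = η.toZFSet ∧ ξ < η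
  h2 : ∀ f ∈ Hc (LA ∅ D.χ) (par D a' ρ) m.toZFSet, ∀ η < D.μ k,
    app f k.toZFSet = η.toZFSet → η < δ

section

variable {D : Dat} {i ρ : Ordinal.{0}} {a' : V} {m k δ : Ordinal.{0}}

theorem μ_mono (hD : D.Ok) (hik : i ≤ k) (hk : k < D.κ) : D.μ i ≤ D.μ k := by
  rcases hik.eq_or_lt with h | h
  · rw [h]
  · exact ((hD.sz.μγ i k h hk).trans (hD.sz.γμ k hk)).le

theorem γ_mono (hD : D.Ok) (hik : i ≤ k) (hk : k < D.κ) : D.γ i ≤ D.γ k := by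
  rcases hik.eq_or_lt with h | h
  · rw [h]
  · exact ((hD.sz.γμ i (h.trans hk)).trans (hD.sz.μγ i k h hk)).le

theorem par_mem (hD : D.Ok) (hi : i < D.κ) (hρ : ρ < D.μ i) (ha : a' ∈ LA ∅ D.χ) :
    par D a' ρ ∈ LA ∅ D.χ := by
  have kχ := hD.grd.zχ
  have h1 : ρ < D.χ := hρ.trans ((hD.sz.μκ i hi).trans hD.grd.κχ)
  unfold par
  exact kχ.mpair ha (kχ.mpair (ord_LA hD.grd.κχ) (kχ.mpair hD.sz.gaM
    (kχ.mpair hD.sz.muM (ord_LA h1))))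

theorem comps {N Z : V} (hZ : ElSub Z N) (kN : ZFm (· ∈ N)) (ha : par D a' ρ ∈ Z) :
    D.κ.toZFSet ∈ Z ∧ D.ga ∈ Z ∧ D.mu ∈ Z ∧ ρ.toZFSet ∈ Z := by
  have hs : ∀ x ∈ Z, snd x ∈ Z := fun x hx =>
    cl_el hZ kN (F := fun _ w => snd (w 0)) (Tm.snd (Tm.var 0)) (fun _ => x) fun _ => hx
  have hf : ∀ x ∈ Z, fst x ∈ Z := fun x hx =>
    cl_el hZ kN (F := fun _ w => fst (w 0)) (Tm.fst (Tm.var 0)) (fun _ => x) fun _ => hx
  unfold par at ha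
  have h1 := hs _ ha
  rw [snd_pair] at h1
  have h2 := hs _ h1
  rw [snd_pair] at h2
  have h3 := hs _ h2
  rw [snd_pair] at h3
  have e1 := hf _ h1
  have e2 := hf _ h2
  have e3 := hf _ h3
  have e4 := hs _ h3
  rw [fst_pair] at e1 e2 e3
  rw [snd_pair] at e4
  exact ⟨e1, e2, e3, e4⟩

/-- the hull -/
noncomputable def XF (D : Dat) (ρ : Ordinal.{0}) (a' : V) (m k : Ordinal.{0}) : V :=
  Dcl (LA ∅ D.χ) (Hc (LA ∅ D.χ) (par D a' ρ) m.toZFSet ∪ LA ∅ (D.γ k))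

theorem XF_el (hHB : T_HB) (hDC : T_DC) (H : Ctx D i ρ a' m k δ) :
    ElSub (XF D ρ a' m k) (LA ∅ D.χ) ∧ (XF D ρ a' m k).Nonempty ∧
    Hc (LA ∅ D.χ) (par D a' ρ) m.toZFSet ⊆ XF D ρ a' m k ∧ LA ∅ (D.γ k) ⊆ XF D ρ a' m k := by
  have kχ := H.ok.grd.zχ
  have hHm := hHB D H.ok i H.iκ ρ H.ρμ _ (par_mem H.ok H.iκ H.ρμ H.aχ) m H.mρ
  have hsub : Hc (LA ∅ D.χ) (par D a' ρ) m.toZFSet ∪ LA ∅ (D.γ k) ⊆ LA ∅ D.χ := by
    intro x hx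
    rcases ZFSet.mem_union.1 hx with h | h
    · exact hHm.2.1 h
    · exact LA_sub ((H.ok.sz.γκ k H.kκ).trans H.ok.grd.κχ).le h
  obtain ⟨h1, h2, h3, -⟩ := hDC (LA ∅ D.χ) ∅ D.χ kχ kχ.mempty rfl _ hsub (Or.inl rfl)
  exact ⟨h1, h2, fun x hx => h3 (ZFSet.mem_union.2 (Or.inl hx)),
    fun x hx => h3 (ZFSet.mem_union.2 (Or.inr hx))⟩

theorem XF_comps (hHB : T_HB) (hDC : T_DC) (H : Ctx D i ρ a' m k δ) :
    par D a' ρ ∈ XF D ρ a' m k ∧ k.toZFSet ∈ XF D ρ a' m k ∧ (D.μ k).toZFSet ∈ XF D ρ a' m k ∧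
    (D.γ k).toZFSet ∈ XF D ρ a' m k ∧ ρ.toZFSet ∈ XF D ρ a' m k ∧
    LA ∅ (D.γ k) ∈ XF D ρ a' m k := by
  have kχ := H.ok.grd.zχ
  obtain ⟨hel, hne, hHX, hLX⟩ := XF_el hHB hDC H
  have hHm := hHB D H.ok i H.iκ ρ H.ρμ _ (par_mem H.ok H.iκ H.ρμ H.aχ) m H.mρ
  have ha : par D a' ρ ∈ XF D ρ a' m k := hHX hHm.2.2.2.2.1
  obtain ⟨h1, h2, h3, h4⟩ := comps hel kχ ha
  have hk : k.toZFSet ∈ XF D ρ a' m k := hLX (ord_LA (H.ok.sz.iγ k H.kκ))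
  have h5 := cl_el hel kχ (F := fun _ w => app (w 0) (w 1)) (Tm.app (Tm.var 0) (Tm.var 1))
    (cons D.mu fun _ => k.toZFSet) (In.cons (M := (· ∈ XF D ρ a' m k)) (fun _ => hk) h3)
  have h6 := cl_el hel kχ (F := fun _ w => app (w 0) (w 1)) (Tm.app (Tm.var 0) (Tm.var 1))
    (cons D.ga fun _ => k.toZFSet) (In.cons (M := (· ∈ XF D ρ a' m k)) (fun _ => hk) h2)
  simp only [cons_zero, cons_succ] at h5 h6
  rw [H.ok.sz.muA k H.kκ] at h5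
  rw [H.ok.sz.gaA k H.kκ] at h6
  exact ⟨ha, hk, h5, h6, h4, LA_el hel kχ h6⟩

theorem XF_ord (hHD : T_HD) (H : Ctx D i ρ a' m k δ) :
    ∀ ξ < D.μ k, ξ.toZFSet ∈ XF D ρ a' m k ↔ ξ < δ :=
  hHD D H.ok i H.iκ ρ H.ρμ a' H.aχ m H.mρ H.lim k H.ik H.kκ δ H.δμ H.h1 H.h2

theorem XF_sm (hHB : T_HB) (hGH : T_GH) (H : Ctx D i ρ a' m k δ) :
    Sm D.M (LA ∅ (D.γ k)) (XF D ρ a' m k) := by
  obtain ⟨hGi, hMi, -⟩ := (hGH D H.ok).1 i H.iκ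
  obtain ⟨hGk, hMk, -⟩ := (hGH D H.ok).1 k H.kκ
  have kM : ZFm D.M := H.ok.grd.zfc.toZFm
  have hHm := hHB D H.ok i H.iκ ρ H.ρμ _ (par_mem H.ok H.iκ H.ρμ H.aχ) m H.mρ
  have h1 := (pf_DF D.M kM _ hMi hGi).2.2.2.2.2.2.2.2.1 _ hMk
    (LA_sub (γ_mono H.ok H.ik H.kκ)) _ hHm.2.2.1
  obtain ⟨e1, e2, e3, e4, e5, e6, e7, e8, -⟩ := pf_DF D.M kM _ hMk hGk
  have h2 := e5 _ _ h1 (e2 _ hMk fun _ h => h)
  exact e8 _ _ (LA_mem H.ok.grd.χθ) (DF.sm_mem kM h2) h2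

/-- the inverse of the collapse of the hull -/
structure Col (D : Dat) (ρ : Ordinal.{0}) (a' : V) (m k δ ζ : Ordinal.{0}) (f : V) : Prop where
  el : IsElem (LA ∅ ζ) (LA ∅ D.χ) f
  zm : ZFm (· ∈ LA ∅ ζ)
  rng : ∀ y, y ∈ XF D ρ a' m k ↔ ∃ u ∈ LA ∅ ζ, app f u = y
  mem : ∀ u ∈ LA ∅ ζ, ∀ y, y ∈ u ↔ y ∈ LA ∅ ζ ∧ app f y ∈ app f u
  fixL : ∀ u ∈ LA ∅ (D.γ k), u ∈ LA ∅ ζ ∧ app f u = u
  fixLL : LA ∅ (D.γ k) ∈ LA ∅ ζ ∧ app f (LA ∅ (D.γ k)) = LA ∅ (D.γ k)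
  fixδ : ∀ ξ < δ, ξ.toZFSet ∈ LA ∅ ζ ∧ app f ξ.toZFSet = ξ.toZFSet
  fδ : δ.toZFSet ∈ LA ∅ ζ ∧ app f δ.toZFSet = (D.μ k).toZFSet
  δζ : δ < ζ
  ζμ : ζ < D.μ k

theorem exists_col (hHB : T_HB) (hHD : T_HD) (hDC : T_DC) (hDJ : T_DJ) (hDK : T_DK)
    (hDL : T_DL) (hGH : T_GH) (H : Ctx D i ρ a' m k δ) :
    ∃ ζ f, Col D ρ a' m k δ ζ f := by
  have kχ := H.ok.grd.zχ
  obtain ⟨hel, hne, hHX, hLX⟩ := XF_el hHB hDC H
  obtain ⟨ha, hk, hμ, hγ, hρ, hL⟩ := XF_comps hHB hDC H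
  have hord := XF_ord hHD H
  set X := XF D ρ a' m k with hX
  obtain ⟨f, hf, htr, hrng, hclp, hmem, hfix⟩ := hDK (LA ∅ D.χ) X (tr_LA _)
    ⟨_, kχ.mempty⟩ hel
  have hemp : (∅ : V) ∈ X := emp_el hel kχ hne
  have hc0 : clp X ∅ = ∅ := by
    refine (ZFSet.eq_empty _).2 fun y hy => ?_
    obtain ⟨z, hz, -⟩ := (hDJ.1 X ∅ y).1 hy
    exact ZFSet.notMem_empty _ hz
  have h0 : (∅ : V) ∈ imS X fun x => clp X x := mem_imS.2 ⟨∅, hemp, hc0⟩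
  have hf0 : app f ∅ = ∅ := by
    have := hclp ∅ hemp
    rwa [hc0] at this
  obtain ⟨ζ, hζ, hζm, hζo⟩ := hDL _ (LA ∅ D.χ) f ∅ D.χ hf htr ⟨_, h0⟩ kχ h0 (by rw [hf0])
  have hδX : (δ.toZFSet : V) ⊆ X := by
    intro x hx
    obtain ⟨ξ, hξ, rfl⟩ := Ordinal.mem_toZFSet_iff.1 hx
    exact (hord ξ (hξ.trans H.δμ)).2 hξ
  have hfd := hfix δ.toZFSet (ZFSet.isOrdinal_toZFSet δ).isTransitive hδX
  have hfL := hfix (LA ∅ (D.γ k)) (tr_LA _) hLX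
  have cμ : clp X (D.μ k).toZFSet = δ.toZFSet := by
    ext y
    rw [hDJ.1]
    constructor
    · rintro ⟨z, hz, hzX, rfl⟩
      obtain ⟨ξ, hξ, rfl⟩ := Ordinal.mem_toZFSet_iff.1 hz
      have h1 := (hord ξ hξ).1 hzX
      rw [(hfd _ (Ordinal.toZFSet_mem_toZFSet_iff.2 h1)).1]
      exact Ordinal.toZFSet_mem_toZFSet_iff.2 h1
    · intro hy
      obtain ⟨ξ, hξ, rfl⟩ := Ordinal.mem_toZFSet_iff.1 hy
      exact ⟨ξ.toZFSet, Ordinal.toZFSet_mem_toZFSet_iff.2 (hξ.trans H.δμ), hδX hy,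
        (hfd _ hy).1.symm⟩
  have cL : clp X (LA ∅ (D.γ k)) = LA ∅ (D.γ k) := by
    ext y
    rw [hDJ.1]
    constructor
    · rintro ⟨z, hz, hzX, rfl⟩
      rw [(hfL z hz).1]
      exact hz
    · intro hy
      exact ⟨y, hy, hLX hy, (hfL y hy).1.symm⟩
  have fδ : δ.toZFSet ∈ LA ∅ ζ ∧ app f δ.toZFSet = (D.μ k).toZFSet := by
    constructor
    · rw [← hζ]
      exact mem_imS.2 ⟨_, hμ, cμ⟩
    · have := hclp _ hμ
      rwa [cμ] at this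
  have ζμ : ζ < D.μ k := by
    by_contra hc
    rw [not_lt] at hc
    obtain ⟨hGk, hMk, -⟩ := (hGH D H.ok).1 k H.kκ
    have kM : ZFm D.M := H.ok.grd.zfc.toZFm
    obtain ⟨e1, e2, e3, e4, e5, e6, e7, e8, -⟩ := pf_DF D.M kM _ hMk hGk
    have hXs : Sm D.M (LA ∅ (D.γ k)) X := XF_sm hHB hGH H
    have hXM : D.M X := DF.sm_mem kM hXs
    have hr : D.M (resS X fun x => clp X x) := by
      have := (Tm.resS (f := fun _ w => w 0) (g := fun _ w => clp (w 1) (w 0)) (Tm.var 0)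
        (Tm.at2 (F := fun _ x y => clp x y) hDJ.2 (Tm.var 1) (Tm.var 0))).1 D.M kM
        (fun _ => X) fun _ => hXM
      simpa only [cons_zero, cons_succ] using this
    have h7 := e7 _ _ hXs hr (svl_resS _ _) (dm_resS _ _)
    have hμM : D.M (D.μ k).toZFSet :=
      ord_LA ((H.ok.sz.μκ k H.kκ).trans (H.ok.grd.κχ.trans H.ok.grd.χθ))
    refine H.ok.sz.ns k H.kκ (e3 _ _ hμM h7 ?_)
    intro y hy
    obtain ⟨ξ, hξ, rfl⟩ := Ordinal.mem_toZFSet_iff.1 hy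
    obtain ⟨x, hx, hxe⟩ := mem_imS.1 ((hζo ξ).2 (lt_of_lt_of_le hξ hc))
    exact mem_rg.2 ⟨x, pair_mem_resS.2 ⟨hx, hxe.symm⟩⟩
  refine ⟨ζ, f, ?_⟩
  rw [hζ] at hf hrng hmem hζm hζo
  exact {
    el := hf
    zm := hζm
    rng := hrng
    mem := hmem
    fixL := fun u hu => ⟨by
      rw [← hζ]
      exact mem_imS.2 ⟨u, hLX hu, (hfL u hu).1⟩, (hfL u hu).2⟩
    fixLL := ⟨by
      rw [← hζ]
      exact mem_imS.2 ⟨_, hL, cL⟩, by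
      have := hclp _ hL
      rwa [cL] at this⟩
    fixδ := fun ξ hξ => ⟨by
      rw [← hζ]
      exact mem_imS.2 ⟨_, hδX (Ordinal.toZFSet_mem_toZFSet_iff.2 hξ),
        (hfd _ (Ordinal.toZFSet_mem_toZFSet_iff.2 hξ)).1⟩,
      (hfd _ (Ordinal.toZFSet_mem_toZFSet_iff.2 hξ)).2⟩
    fδ := fδ
    δζ := (hζo δ).1 fδ.1
    ζμ := ζμ }

/-- `δ` is not an image in the collapsed level -/
theorem col_NS (H : Ctx D i ρ a' m k δ) {ζ : Ordinal.{0}} {f : V}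
    (c : Col D ρ a' m k δ ζ f) : NS (D.γ k) δ ζ := by
  intro h hh ho
  have hv : ∀ j, (cons h (cons (LA ∅ (D.γ k)) fun _ => δ.toZFSet)) j ∈ LA ∅ ζ :=
    In.cons (M := (· ∈ LA ∅ ζ)) (In.cons (M := (· ∈ LA ∅ ζ)) (fun _ => c.fδ.1) c.fixLL.1) hh
  have h1 := (led (R := fun _ w => Onto (w 0) (w 1) (w 2)) (Dfb.onto (Tm.var 0) (Tm.var 1)
    (Tm.var 2)) c.el c.zm H.ok.grd.zχ _ hv).1 ho
  simp only [cons_zero, cons_succ] at h1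
  rw [c.fixLL.2, c.fδ.2] at h1
  exact H.ok.sz.ns k H.kκ (Or.inr ⟨app f h, LA_sub H.ok.grd.χθ.le (app_mem c.el.func hh), h1⟩)

/-- ordinals below `δ` are small in the collapsed level -/
theorem col_sm (hHB : T_HB) (hDC : T_DC) (hHD : T_HD) (H : Ctx D i ρ a' m k δ)
    {ζ : Ordinal.{0}} {f : V} (c : Col D ρ a' m k δ ζ f) {ξ : Ordinal.{0}} (hξ : ξ < δ) :
    Sm (· ∈ LA ∅ ζ) (LA ∅ (D.γ k)) ξ.toZFSet := by
  have kχ := H.ok.grd.zχ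
  obtain ⟨hel, hne, hHX, hLX⟩ := XF_el hHB hDC H
  obtain ⟨ha, hk, hμ, hγ, hρ, hL⟩ := XF_comps hHB hDC H
  have hord := XF_ord hHD H
  rcases H.ok.sz.sm k H.kκ ξ (hξ.trans H.δμ) with h0 | ⟨h0, hh0, ho⟩
  · exact Or.inl h0
  right
  have hξX : ξ.toZFSet ∈ XF D ρ a' m k := (hord ξ (hξ.trans H.δμ)).2 hξ
  have hp : ZFSet.prod (LA ∅ (D.γ k)) ξ.toZFSet ∈ LA ∅ D.χ :=
    (Tm.prod (Tm.var 0) (Tm.var 1)).1 _ kχ (cons (LA ∅ (D.γ k)) fun _ => ξ.toZFSet)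
      (In.cons (fun _ => hel.1 hξX) (hel.1 hL))
  have hh1 : h0 ∈ LA ∅ D.χ := H.ok.grd.subχ _ hp _ hh0 ho.1.1
  obtain ⟨g, hg, hgo⟩ := ex_el hel kχ (R := fun _ w => Onto (w 0) (w 1) (w 2))
    (Dfb.onto (Tm.var 0) (Tm.var 1) (Tm.var 2)) (cons (LA ∅ (D.γ k)) fun _ => ξ.toZFSet)
    (In.cons (M := (· ∈ XF D ρ a' m k)) (fun _ => hξX) hL) ⟨h0, hh1, ho⟩
  obtain ⟨g', hg', rfl⟩ := (c.rng g).1 hg
  refine ⟨g', hg', ?_⟩
  have hv : ∀ j, (cons g' (cons (LA ∅ (D.γ k)) fun _ => ξ.toZFSet)) j ∈ LA ∅ ζ :=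
    In.cons (M := (· ∈ LA ∅ ζ)) (In.cons (M := (· ∈ LA ∅ ζ)) (fun _ => (c.fixδ ξ hξ).1)
      c.fixLL.1) hg'
  refine (led (R := fun _ w => Onto (w 0) (w 1) (w 2)) (Dfb.onto (Tm.var 0) (Tm.var 1)
    (Tm.var 2)) c.el c.zm kχ _ hv).2 ?_
  simp only [cons_zero, cons_succ]
  rw [c.fixLL.2, (c.fixδ ξ hξ).2]
  exact hgo

/-! ### suprema -/

/-- the supremum of the successors of the elements of `E` -/
noncomputable def sups (E : V) : V := ⋃₀ (imS E fun η => insert η η : ZFSet)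

theorem mem_sups {E y : V} : y ∈ sups E ↔ ∃ η ∈ E, y = η ∨ y ∈ η := by
  unfold sups
  rw [ZFSet.mem_sUnion]
  constructor
  · rintro ⟨z, hz, hy⟩
    obtain ⟨η, hη, rfl⟩ := mem_imS.1 hz
    exact ⟨η, hη, ZFSet.mem_insert_iff.1 hy⟩
  · rintro ⟨η, hη, hy⟩
    exact ⟨_, mem_imS.2 ⟨η, hη, rfl⟩, ZFSet.mem_insert_iff.2 hy⟩

theorem Tm.sups {f : (V → Prop) → (ℕ → V) → V} (hf : Tm ZFm f) :
    Tm ZFm (fun M v => H60.sups (f M v)) := by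
  refine Tm.sUnion ?_
  exact (Tm.image hf (g := fun _ w => insert (w 0) (w 0)) (Tm.ins (Tm.var 0) (Tm.var 0))).congr
    fun M k v hv => rfl

/-- the values `< u` at `k` of the elements of `h` -/
noncomputable def vals (u h k : V) : V := u.sep fun η => ∃ g ∈ h, app g k = η

theorem mem_vals {u h k y : V} : y ∈ vals u h k ↔ y ∈ u ∧ ∃ g ∈ h, app g k = y := by
  unfold vals
  rw [ZFSet.mem_sep]

theorem Tm.vals {f g h : (V → Prop) → (ℕ → V) → V} (hf : Tm ZFm f) (hg : Tm ZFm g)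
    (hh : Tm ZFm h) : Tm ZFm (fun M v => H60.vals (f M v) (g M v) (h M v)) := by
  refine Tm.at3 (F := fun _ x y z => H60.vals x y z) ?_ hf hg hh
  refine Tm.sep (R := fun _ w => ∃ g ∈ w 2, app g (w 3) = w 0) ?_ (Tm.var 0)
  exact (Dfb.bex (R := fun _ w => app (w 0) (w 4) = w 1) ktr_zfm (Tm.var 2)
    (Dfb.eq (Tm.app (Tm.var 0) (Tm.var 4)) (Tm.var 1))).congr fun M k v hv => Iff.rfl

theorem sups_ord {E : V} {b : Ordinal.{0}} (hE : E ⊆ b.toZFSet) :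
    ∃ e : Ordinal.{0}, sups E = e.toZFSet ∧ e ≤ b := by
  have hord : ∀ y ∈ sups E, ∃ α < b, y = α.toZFSet := by
    intro y hy
    obtain ⟨η, hη, h⟩ := mem_sups.1 hy
    obtain ⟨α, hα, rfl⟩ := Ordinal.mem_toZFSet_iff.1 (hE hη)
    rcases h with rfl | h
    · exact ⟨α, hα, rfl⟩
    · obtain ⟨β, hβ, rfl⟩ := Ordinal.mem_toZFSet_iff.1 h
      exact ⟨β, hβ.trans hα, rfl⟩
  have h1 : IsOrd (sups E) := by
    rw [isOrd_iff]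
    constructor
    · intro y hy z hz
      obtain ⟨η, hη, h⟩ := mem_sups.1 hy
      obtain ⟨α, hα, rfl⟩ := Ordinal.mem_toZFSet_iff.1 (hE hη)
      refine mem_sups.2 ⟨_, hη, Or.inr ?_⟩
      rcases h with rfl | h
      · exact hz
      · exact (ZFSet.isOrdinal_toZFSet α).isTransitive y h hz
    · intro y hy
      obtain ⟨α, -, rfl⟩ := hord y hy
      exact (ZFSet.isOrdinal_toZFSet α).isTransitive
  obtain ⟨e, he⟩ := h1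
  refine ⟨e, he, ?_⟩
  by_contra hc
  rw [not_le] at hc
  have h2 : b.toZFSet ∈ sups E := by
    rw [he]
    exact Ordinal.toZFSet_mem_toZFSet_iff.2 hc
  obtain ⟨α, hα, h3⟩ := hord _ h2
  rw [Ordinal.toZFSet_injective h3] at hα
  exact lt_irrefl _ hα

/-- the values at `k` of the elements of `H_l` are bounded below `δ` -/
theorem bound_l (hHB : T_HB) (hDC : T_DC) (hGH : T_GH) (H : Ctx D i ρ a' m k δ)
    {l : Ordinal.{0}} (hl : l < m) :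
    ∃ e < δ, ∀ g ∈ Hc (LA ∅ D.χ) (par D a' ρ) l.toZFSet, ∀ η < D.μ k,
      app g k.toZFSet = η.toZFSet → η < e := by
  have kχ := H.ok.grd.zχ
  have hHm := hHB D H.ok i H.iκ ρ H.ρμ _ (par_mem H.ok H.iκ H.ρμ H.aχ) m H.mρ
  have hHl := hHB D H.ok i H.iκ ρ H.ρμ _ (par_mem H.ok H.iκ H.ρμ H.aχ) l (hl.le.trans H.mρ)
  obtain ⟨hGi, hMi, -⟩ := (hGH D H.ok).1 i H.iκ
  obtain ⟨hGk, hMk, hμl, hbd, -⟩ := (hGH D H.ok).1 k H.kκ
  have kM : ZFm D.M := H.ok.grd.zfc.toZFm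
  have hκθ : D.κ < D.θ := H.ok.grd.κχ.trans H.ok.grd.χθ
  set Hl := Hc (LA ∅ D.χ) (par D a' ρ) l.toZFSet with hHl'
  set Hm := Hc (LA ∅ D.χ) (par D a' ρ) m.toZFSet with hHm'
  have hel : ElSub Hm (LA ∅ D.χ) := hHm.2.2.2.1
  obtain ⟨c1, c2, c3, c4⟩ := comps hel kχ hHm.2.2.2.2.1
  -- `H_l` is small
  have h1 : Sm D.M (LA ∅ (D.γ k)) Hl := (pf_DF D.M kM _ hMi hGi).2.2.2.2.2.2.2.2.1 _ hMk
    (LA_sub (γ_mono H.ok H.ik H.kκ)) _ hHl.2.2.1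
  obtain ⟨e1, e2, e3, e4, e5, e6, e7, e8, -⟩ := pf_DF D.M kM _ hMk hGk
  have hHlM : D.M Hl := DF.sm_mem kM h1
  have hkM : D.M k.toZFSet := ord_LA (H.kκ.trans hκθ)
  have hμM : D.M (D.μ k).toZFSet := ord_LA ((H.ok.sz.μκ k H.kκ).trans hκθ)
  have hr : D.M (resS Hl fun g => app g k.toZFSet) := by
    have := (Tm.resS (f := fun _ w => w 0) (g := fun _ w => app (w 0) (w 2)) (Tm.var 0)
      (Tm.app (Tm.var 0) (Tm.var 2))).1 D.M kM (cons Hl fun _ => k.toZFSet)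
      (In.cons (fun _ => hkM) hHlM)
    simpa only [cons_zero, cons_succ] using this
  have h7 := e7 _ _ h1 hr (svl_resS _ _) (dm_resS _ _)
  have hE : D.M (vals (D.μ k).toZFSet Hl k.toZFSet) :=
    (Tm.vals (Tm.var 0) (Tm.var 1) (Tm.var 2)).1 D.M kM
      (cons (D.μ k).toZFSet (cons Hl fun _ => k.toZFSet))
      (In.cons (In.cons (fun _ => hkM) hHlM) hμM)
  have h3 := e3 _ _ hE h7 (by
    intro y hy
    obtain ⟨-, g, hg, rfl⟩ := mem_vals.1 hy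
    exact mem_rg.2 ⟨g, pair_mem_resS.2 ⟨hg, rfl⟩⟩)
  obtain ⟨b, hb, hbE⟩ := hbd _ hE h3 fun y hy => (mem_vals.1 hy).1
  obtain ⟨e, he, heb⟩ := sups_ord hbE
  -- the function in `H_m`
  have hr := (hHm.2.2.2.2.2.1 l hl).2
  have hHlm : Hl ∈ Hm := by
    have h := cl_el hel kχ (F := fun _ w => app (w 0) (⋃₀ (dm (w 0)) : ZFSet))
      (Tm.app (Tm.var 0) (Tm.sUnion (Tm.dm (Tm.var 0)))) (fun _ => _) fun _ => hr
    simp only [dm_resS] at h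
    have e0 : (⋃₀ ((succ l).toZFSet : V) : ZFSet) = l.toZFSet := by
      ext y
      rw [ZFSet.mem_sUnion]
      constructor
      · rintro ⟨z, hz, hy⟩
        obtain ⟨α, hα, rfl⟩ := Ordinal.mem_toZFSet_iff.1 hz
        obtain ⟨β, hβ, rfl⟩ := Ordinal.mem_toZFSet_iff.1 hy
        exact Ordinal.toZFSet_mem_toZFSet_iff.2 (lt_of_lt_of_le hβ (lt_succ_iff.1 hα))
      · intro hy
        exact ⟨l.toZFSet, Ordinal.toZFSet_mem_toZFSet_iff.2 (lt_succ l), hy⟩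
    rw [e0, app_resS (Ordinal.toZFSet_mem_toZFSet_iff.2 (lt_succ l))] at h
    exact h
  have hF : (resS D.κ.toZFSet fun k' => sups (vals (app D.mu k') Hl k')) ∈ Hm := by
    have h := cl_el hel kχ
      (F := fun _ w => resS (w 0) fun k' => sups (vals (app (w 1) k') (w 2) k'))
      (Tm.resS (f := fun _ w => w 0) (g := fun _ w => sups (vals (app (w 2) (w 0)) (w 3) (w 0)))
        (Tm.var 0) (Tm.sups (Tm.vals (Tm.app (Tm.var 2) (Tm.var 0)) (Tm.var 3) (Tm.var 0))))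
      (cons D.κ.toZFSet (cons D.mu fun _ => Hl))
      (In.cons (M := (· ∈ Hm)) (In.cons (M := (· ∈ Hm)) (fun _ => hHlm) c3) c1)
    simpa only [cons_zero, cons_succ] using h
  have hval : app (resS D.κ.toZFSet fun k' => sups (vals (app D.mu k') Hl k')) k.toZFSet =
      e.toZFSet := by
    rw [app_resS (Ordinal.toZFSet_mem_toZFSet_iff.2 H.kκ), H.ok.sz.muA k H.kκ, he]
  refine ⟨e, H.h2 _ hF e (lt_of_le_of_lt heb hb) hval, ?_⟩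
  intro g hg η hη hgη
  have h8 : η.toZFSet ∈ sups (vals (D.μ k).toZFSet Hl k.toZFSet) :=
    mem_sups.2 ⟨_, mem_vals.2 ⟨Ordinal.toZFSet_mem_toZFSet_iff.2 hη, g, hg, hgη⟩, Or.inl rfl⟩
  rw [he] at h8
  exact Ordinal.toZFSet_mem_toZFSet_iff.1 h8

end

theorem hf (hHA : T_HA) (hHB : T_HB) (hHD : T_HD) (hHE : T_HE) (hDC : T_DC) (hDJ : T_DJ)
    (hDK : T_DK) (hDL : T_DL) (hGH : T_GH) : T_HF := by
  intro D hD i hi ρ hρ a' ha' m hm hlim k hik hk δ hδ h1 h2 hInE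
  have H : Ctx D i ρ a' m k δ := ⟨hD, hi, hρ, ha', hm, hlim, hik, hk, hδ, h1, h2⟩
  obtain ⟨ζ, f, c⟩ := exists_col hHB hHD hDC hDJ hDK hDL hGH H
  obtain ⟨z, hζz, hzκ, kz, hNS⟩ := hInE.nl ζ c.δζ (c.ζμ.trans (hD.sz.μκ k hk)) c.zm (col_NS H c)
  have kχ := hD.grd.zχ
  obtain ⟨hel, hne, hHX, hLX⟩ := XF_el hHB hDC H
  obtain ⟨haX, hkX, hμX, hγX, hρX, hLX'⟩ := XF_comps hHB hDC H
  have hord := XF_ord hHD H
  obtain ⟨ab, hab, hfab⟩ := (c.rng _).1 haX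
  have hρδ : ρ < δ := (hord ρ (lt_of_lt_of_le hρ (μ_mono hD hik hk))).1 hρX
  have hmδ : m < δ := lt_of_le_of_lt hm hρδ
  have hHm := hHB D hD i hi ρ hρ _ (par_mem hD hi hρ ha') m hm
  have hE := hHE (LA ∅ ζ) (LA ∅ D.χ) f ab m c.el (tr_LA _) (tr_LA _) c.zm kχ hab c.mem (by
    intro l hl
    have hlδ : l < δ := hl.trans hmδ
    refine ⟨(c.fixδ l hlδ).1, (c.fixδ l hlδ).2, ?_, ?_⟩
    · intro y hy
      rw [hfab] at hy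
      exact (c.rng y).1 (hHX ((hHm.2.2.2.2.2.1 l hl).1 hy))
    · rw [hfab]
      exact (c.rng _).1 (hHX (hHm.2.2.2.2.2.1 l hl).2))
  rw [hfab] at hE
  have hsub : ∀ x, Hc (LA ∅ ζ) ab x ⊆ LA ∅ ζ := by
    intro x
    rw [hHA.1]
    exact ZFSet.sep_subset
  -- `k` is fixed
  have hkL : k.toZFSet ∈ LA ∅ (D.γ k) := ord_LA (hD.sz.iγ k hk)
  have hkζ := c.fixL _ hkL
  -- application commutes with `f`
  have happ : ∀ g ∈ LA ∅ ζ, app g k.toZFSet ∈ LA ∅ ζ ∧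
      app f (app g k.toZFSet) = app (app f g) k.toZFSet := by
    intro g hg
    have hv : ∀ j, (cons g fun _ => k.toZFSet) j ∈ LA ∅ ζ :=
      In.cons (M := (· ∈ LA ∅ ζ)) (fun _ => hkζ.1) hg
    have h3 := (Tm.app (Tm.var 0) (Tm.var 1)).1 (· ∈ LA ∅ ζ) c.zm _ hv
    have h4 := let' (Tm.app (Tm.var 0) (Tm.var 1)) c.el c.zm kχ _ hv
    simp only [cons_zero, cons_succ] at h3 h4
    rw [hkζ.2] at h4
    exact ⟨h3, h4⟩
  have hinj : ∀ x ∈ LA ∅ ζ, ∀ y ∈ LA ∅ ζ, app f x = app f y → x = y := by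
    intro x hx y hy hxy
    have hv : ∀ j, (cons x fun _ => y) j ∈ LA ∅ ζ :=
      In.cons (M := (· ∈ LA ∅ ζ)) (fun _ => hy) hx
    exact (led (R := fun _ w => w 0 = w 1) (Dfb.eq (Tm.var 0) (Tm.var 1)) c.el c.zm kχ _ hv).2 hxy
  -- the values computed with the collapsed chain
  have hvals : ∀ l < m, vals δ.toZFSet (Hc (LA ∅ ζ) ab l.toZFSet) k.toZFSet =
      vals (D.μ k).toZFSet (Hc (LA ∅ D.χ) (par D a' ρ) l.toZFSet) k.toZFSet := by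
    intro l hl
    ext y
    rw [mem_vals, mem_vals]
    constructor
    · rintro ⟨hy, g, hg, rfl⟩
      obtain ⟨η, hη, hη'⟩ := Ordinal.mem_toZFSet_iff.1 hy
      rw [← hη']
      refine ⟨Ordinal.toZFSet_mem_toZFSet_iff.2 (hη.trans hδ), app f g,
        ((hE l hl).1 _).2 ⟨g, hg, rfl⟩, ?_⟩
      rw [← (happ g (hsub _ hg)).2, ← hη', (c.fixδ η hη).2]
    · rintro ⟨hy, g, hg, rfl⟩
      obtain ⟨η, hη, hη'⟩ := Ordinal.mem_toZFSet_iff.1 hy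
      have hηδ : η < δ := h2 g ((hHm.2.2.2.2.2.1 l hl).1 hg) η hη hη'.symm
      rw [← hη']
      refine ⟨Ordinal.toZFSet_mem_toZFSet_iff.2 hηδ, ?_⟩
      obtain ⟨g', hg', hgg⟩ := ((hE l hl).1 _).1 hg
      refine ⟨g', hg', hinj _ (happ g' (hsub _ hg')).1 _ (c.fixδ η hηδ).1 ?_⟩
      rw [(happ g' (hsub _ hg')).2, hgg, (c.fixδ η hηδ).2, ← hη']
  -- they are bounded
  have hbd : ∀ l < m, ∃ e < δ, sups (vals δ.toZFSet (Hc (LA ∅ ζ) ab l.toZFSet) k.toZFSet) =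
      e.toZFSet := by
    intro l hl
    rw [hvals l hl]
    obtain ⟨e, he, h3⟩ := bound_l hHB hDC hGH H hl
    obtain ⟨e', he', hee⟩ := sups_ord (E := vals (D.μ k).toZFSet
      (Hc (LA ∅ D.χ) (par D a' ρ) l.toZFSet) k.toZFSet) (b := e) (by
        intro y hy
        obtain ⟨hy, g, hg, hgy⟩ := mem_vals.1 hy
        obtain ⟨η, hη, rfl⟩ := Ordinal.mem_toZFSet_iff.1 hy
        exact Ordinal.toZFSet_mem_toZFSet_iff.2 (h3 g hg η hη hgy))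
    exact ⟨e', lt_of_le_of_lt hee he, he'⟩
  -- the sequence in the higher level
  obtain ⟨hGk, hMk, -⟩ := (hGH D hD).1 k hk
  have kzc : ZFCm (· ∈ LA ∅ z) := (hGH D hD).2.1 z ((hGH D hD).2.2 z kz).2.1 kz
  have hζz' : ∀ x ∈ LA ∅ ζ, x ∈ LA ∅ z := fun x hx => LA_sub hζz.le hx
  have hLK : LA ∅ (D.γ k) ∈ LA ∅ z := hζz' _ c.fixLL.1
  obtain ⟨e1, e2, e3, e4, e5, e6, e7, e8, -⟩ := pf_DF (· ∈ LA ∅ z) kz _ hLK hGk
  have hsmz : ∀ ξ < δ, Sm (· ∈ LA ∅ z) (LA ∅ (D.γ k)) ξ.toZFSet := by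
    intro ξ hξ
    rcases col_sm hHB hDC hHD H c hξ with h | ⟨g, hg, ho⟩
    · exact Or.inl h
    · exact Or.inr ⟨g, hζz' g hg, ho⟩
  have hv : In (· ∈ LA ∅ z) (cons m.toZFSet (cons (LA ∅ ζ) (cons ab (cons δ.toZFSet
      fun _ => k.toZFSet)))) :=
    In.cons (In.cons (In.cons (In.cons (fun _ => hζz' _ hkζ.1) (hζz' _ c.fδ.1))
      (hζz' _ hab)) (LA_mem hζz)) (hζz' _ (c.fixδ m hmδ).1)
  have hT : Tm ZFm (fun _ w => sups (vals (w 4) (Hc (w 2) (w 3) (w 0)) (w 5))) :=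
    Tm.sups (Tm.vals (Tm.var 4) (Tm.at3 (F := fun _ x y z => Hc x y z) hHA.2 (Tm.var 2)
      (Tm.var 3) (Tm.var 0)) (Tm.var 5))
  have hr := (Tm.resS (Tm.var 0) hT).1 (· ∈ LA ∅ z) kz _ hv
  have hi' := (Tm.image (Tm.var 0) hT).1 (· ∈ LA ∅ z) kz _ hv
  simp only [cons_zero, cons_succ] at hr hi'
  have h7 := e7 _ _ (hsmz m hmδ) hr (svl_resS _ _) (dm_resS _ _)
  have erg : rg (resS m.toZFSet fun x => sups (vals δ.toZFSet (Hc (LA ∅ ζ) ab x) k.toZFSet)) =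
      imS m.toZFSet fun x => sups (vals δ.toZFSet (Hc (LA ∅ ζ) ab x) k.toZFSet) := by
    ext y
    rw [mem_rg, mem_imS]
    constructor
    · rintro ⟨x, hx⟩
      exact ⟨x, (pair_mem_resS.1 hx).1, (pair_mem_resS.1 hx).2.symm⟩
    · rintro ⟨x, hx, h⟩
      exact ⟨x, pair_mem_resS.2 ⟨hx, h.symm⟩⟩
  rw [erg] at h7
  have hall : ∀ x ∈ (imS m.toZFSet fun x => sups (vals δ.toZFSet (Hc (LA ∅ ζ) ab x) k.toZFSet)),
      Sm (· ∈ LA ∅ z) (LA ∅ (D.γ k)) x := by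
    intro x hx
    obtain ⟨y, hy, rfl⟩ := mem_imS.1 hx
    obtain ⟨l, hl, rfl⟩ := Ordinal.mem_toZFSet_iff.1 hy
    obtain ⟨e, he, hee⟩ := hbd l hl
    rw [hee]
    exact hsmz e he
  have hfin := pf_DG (· ∈ LA ∅ z) kzc _ hLK hGk _ hi' h7 hall
  have hun : (⋃₀ (imS m.toZFSet fun x => sups (vals δ.toZFSet (Hc (LA ∅ ζ) ab x) k.toZFSet)) :
      ZFSet) = δ.toZFSet := by
    ext y
    rw [ZFSet.mem_sUnion]
    constructor
    · rintro ⟨w, hw, hy⟩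
      obtain ⟨x, hx, rfl⟩ := mem_imS.1 hw
      obtain ⟨l, hl, rfl⟩ := Ordinal.mem_toZFSet_iff.1 hx
      obtain ⟨e, he, hee⟩ := hbd l hl
      rw [hee] at hy
      obtain ⟨ξ, hξ, rfl⟩ := Ordinal.mem_toZFSet_iff.1 hy
      exact Ordinal.toZFSet_mem_toZFSet_iff.2 (hξ.trans he)
    · intro hy
      obtain ⟨ξ, hξ, rfl⟩ := Ordinal.mem_toZFSet_iff.1 hy
      obtain ⟨g, hg, η, hη, hgη, hξη⟩ := h1 ξ hξ
      obtain ⟨l, hl, hgl⟩ := hHm.2.2.2.2.2.2 hlim g hg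
      refine ⟨_, mem_imS.2 ⟨l.toZFSet, Ordinal.toZFSet_mem_toZFSet_iff.2 hl, rfl⟩, ?_⟩
      rw [hvals l hl]
      exact mem_sups.2 ⟨_, mem_vals.2 ⟨Ordinal.toZFSet_mem_toZFSet_iff.2 hη, g, hgl, hgη⟩,
        Or.inr (Ordinal.toZFSet_mem_toZFSet_iff.2 hξη)⟩
  rw [hun] at hfin
  rcases hfin with h | ⟨g, hg, ho⟩
  · have h3 : (D.γ k).toZFSet ∈ δ.toZFSet := Ordinal.toZFSet_mem_toZFSet_iff.2 hInE.gt
    rw [h] at h3
    exact ZFSet.notMem_empty _ h3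
  · exact hNS g hg ho

end CAA.H60

namespace CAA

/-- HF -/
theorem pf_HF (hHA : T_HA) (hHB : T_HB) (hHD : T_HD) (hHE : T_HE) (hDC : T_DC) (hDJ : T_DJ)
    (hDK : T_DK) (hDL : T_DL) (hGH : T_GH) : T_HF :=
  H60.hf hHA hHB hHD hHE hDC hDJ hDK hDL hGH

end CAA
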