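import Pool.Agent.H60.CA.Bas
import Pool.Agent.H3.CA.DF
import Pool.Agent.H3.CA.DG

/-! SC: existence of the hulls. -/

set_option linter.unusedVariables false

open Ordinal Order Set
open scoped ZFSet

namespace CAA.H60

open SF CAA

/-- `Xh` is uniformly definable -/
theorem tm_Xh (hDB : T_DB) : Tm ZFm (fun _ v => Xh (v 0) (v 1) (v 2) (v 3) (v 4)) := by
  unfold Xh
  refine Tm.at2 (F := fun _ x y => Dcl x y) hDB ?_ ?_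
  · exact Tm.LAS Tm.empty (Tm.app (Tm.var 3) (Tm.var 4))
  · refine Tm.union (Tm.union (Tm.LAS Tm.empty (Tm.var 0)) ?_) ?_
    · exact Tm.ins (Tm.var 0) (Tm.ins (Tm.var 1) (Tm.sing (Tm.var 2)))
    · exact (Tm.image (Tm.var 4) (g := fun _ w => app (w 4) (w 0))
        (Tm.app (Tm.var 4) (Tm.var 0))).congr fun M k v hv => rfl

theorem tm_Xh' (hDB : T_DB) : Tm ZFm (fun _ v => Xh (v 1) (v 2) (v 3) (v 4) (v 0)) := by
  unfold Xh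
  refine Tm.at2 (F := fun _ x y => Dcl x y) hDB ?_ ?_
  · exact Tm.LAS Tm.empty (Tm.app (Tm.var 4) (Tm.var 0))
  · refine Tm.union (Tm.union (Tm.LAS Tm.empty (Tm.var 1)) ?_) ?_
    · exact Tm.ins (Tm.var 1) (Tm.ins (Tm.var 2) (Tm.sing (Tm.var 3)))
    · exact (Tm.image (Tm.var 0) (g := fun _ w => app (w 5) (w 0))
        (Tm.app (Tm.var 5) (Tm.var 0))).congr fun M k v hv => rfl

/-- consecutive elements -/
theorem exists_cz (κ ρ : Ordinal.{0})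
    (hunb : ∀ ρ < κ, ∃ ρ', ρ < ρ' ∧ ρ' < κ ∧ ZFm (· ∈ LA ∅ ρ')) (hρ : ρ < κ) :
    ∃ t : ℕ → Ordinal.{0}, Cz t ∧ (∀ n, t n < κ) ∧ ρ < t 0 := by
  set nx : Ordinal.{0} → Ordinal.{0} := fun ρ => sInf {ρ' | ρ < ρ' ∧ ZFm (· ∈ LA ∅ ρ')} with hnx
  have h1 : ∀ ρ < κ, (ρ < nx ρ ∧ ZFm (· ∈ LA ∅ (nx ρ))) ∧ nx ρ < κ ∧
      ∀ ρ', ρ < ρ' → ρ' < nx ρ → ¬ ZFm (· ∈ LA ∅ ρ') := by
    intro ρ hρ
    obtain ⟨ρ', h1, h2, h3⟩ := hunb ρ hρ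
    have hne : {ρ' | ρ < ρ' ∧ ZFm (· ∈ LA ∅ ρ')}.Nonempty := ⟨ρ', h1, h3⟩
    refine ⟨csInf_mem hne, lt_of_le_of_lt (csInf_le' ⟨h1, h3⟩) h2, ?_⟩
    intro ρ'' h4 h5 h6
    exact absurd (csInf_le' (s := {ρ' | ρ < ρ' ∧ ZFm (· ∈ LA ∅ ρ')}) ⟨h4, h6⟩) (not_le.2 h5)
  set t : ℕ → Ordinal.{0} := fun n => nx^[n + 1] ρ with ht
  have hts : ∀ n, t (n + 1) = nx (t n) := fun n => Function.iterate_succ_apply' _ _ _
  have ht0 : t 0 = nx ρ := rfl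
  have htκ : ∀ n, t n < κ := by
    intro n
    induction n with
    | zero => exact (h1 ρ hρ).2.1
    | succ n ih =>
      rw [hts]
      exact (h1 _ ih).2.1
  refine ⟨t, ?_, htκ, (h1 ρ hρ).1.1⟩
  intro n
  refine ⟨?_, ?_, ?_⟩
  · cases n with
    | zero => exact (h1 ρ hρ).1.2
    | succ n =>
      rw [hts]
      exact (h1 _ (htκ n)).1.2
  · rw [hts]
    exact (h1 _ (htκ n)).1.1
  · intro ρ' h2 h3
    rw [hts] at h3
    exact (h1 _ (htκ n)).2.2 ρ' h2 h3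

theorem cz_mono {t : ℕ → Ordinal.{0}} (h : Cz t) {m n : ℕ} (hmn : m < n) : t m < t n := by
  induction n, hmn using Nat.le_induction with
  | base => exact (h m).2.1
  | succ n _ ih => exact ih.trans (h n).2.1

/-- the ambient data of the construction -/
structure Hyp (D : Dat) (i : Ordinal.{0}) (C : V) (t : ℕ → Ordinal.{0}) (s : V) : Prop where
  ok : D.Ok
  iκ : i < D.κ
  CM : C ∈ LA ∅ D.θ
  cl : IsClub (D.μ i) C
  cz : Cz t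
  tκ : ∀ n, t n < D.κ
  μt : D.μ i < t 0
  sκ : s ∈ LA ∅ D.κ
  ts : ∀ n, app s (nS n) = (t n).toZFSet
  pw : ∀ x ∈ LA ∅ D.θ, x ⊆ LA ∅ (D.μ i) → x ∈ LA ∅ (t 0)

section

variable {D : Dat} {i : Ordinal.{0}} {C : V} {t : ℕ → Ordinal.{0}} {s : V}

/-- the hull with index `n` -/
noncomputable def Xn (D : Dat) (i : Ordinal.{0}) (C s : V) (n : ℕ) : V :=
  Xh (D.γ i).toZFSet (D.μ i).toZFSet C s (nS n)

/-- the parameters -/
noncomputable def Yn (D : Dat) (i : Ordinal.{0}) (C s : V) (n : ℕ) : V :=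
  LA ∅ (D.γ i) ∪ {(D.γ i).toZFSet, (D.μ i).toZFSet, C} ∪ imS (nS n) fun l => app s l

theorem mem_Yn (H : Hyp D i C t s) {n : ℕ} {x : V} : x ∈ Yn D i C s n ↔ x ∈ LA ∅ (D.γ i) ∨
    x = (D.γ i).toZFSet ∨ x = (D.μ i).toZFSet ∨ x = C ∨ ∃ l < n, x = (t l).toZFSet := by
  unfold Yn
  rw [ZFSet.mem_union, ZFSet.mem_union, mem_imS]
  simp only [ZFSet.mem_insert_iff, ZFSet.mem_singleton]
  constructor
  · rintro ((h | h | h | h) | ⟨y, hy, hx⟩)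
    · exact Or.inl h
    · exact Or.inr (Or.inl h)
    · exact Or.inr (Or.inr (Or.inl h))
    · exact Or.inr (Or.inr (Or.inr (Or.inl h)))
    · obtain ⟨l, hl, h⟩ := mem_nS.1 hy
      rw [h, H.ts] at hx
      exact Or.inr (Or.inr (Or.inr (Or.inr ⟨l, hl, hx.symm⟩)))
  · rintro (h | h | h | h | ⟨l, hl, rfl⟩)
    · exact Or.inl (Or.inl h)
    · exact Or.inl (Or.inr (Or.inl h))
    · exact Or.inl (Or.inr (Or.inr (Or.inl h)))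
    · exact Or.inl (Or.inr (Or.inr (Or.inr h)))
    · exact Or.inr ⟨nS l, mem_nS.2 ⟨l, hl, rfl⟩, H.ts l⟩

theorem Xn_eq (H : Hyp D i C t s) (n : ℕ) : Xn D i C s n = Dcl (LA ∅ (t n)) (Yn D i C s n) := by
  unfold Xn Xh Yn
  rw [H.ts, LAS_ord, LAS_ord]

theorem t0_le (H : Hyp D i C t s) (n : ℕ) : t 0 ≤ t n := by
  rcases Nat.eq_zero_or_pos n with h | h
  · rw [h]
  · exact (cz_mono H.cz h).le

theorem tr_LA (τ : Ordinal.{0}) : (LA ∅ τ : V).IsTransitive :=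
  Lh_isTransitive ZFSet.isTransitive_empty τ

theorem ord_LA {α τ : Ordinal.{0}} (h : α < τ) : α.toZFSet ∈ LA ∅ τ :=
  ord_mem_Lh ZFSet.isTransitive_empty h

theorem LA_sub {σ τ : Ordinal.{0}} (h : σ ≤ τ) : LA ∅ σ ⊆ LA ∅ τ := Lh_mono h

theorem LA_mem {σ τ : Ordinal.{0}} (h : σ < τ) : LA ∅ σ ∈ LA ∅ τ := Lh_mem h

theorem C_mem (H : Hyp D i C t s) : C ∈ LA ∅ (t 0) :=
  H.pw C H.CM fun x hx => (ord_sub_Lh ZFSet.isTransitive_empty (D.μ i)).1 (H.cl.sub hx)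

theorem Yn_sub (H : Hyp D i C t s) (n : ℕ) : Yn D i C s n ⊆ LA ∅ (t n) := by
  have hγμ := H.ok.sz.γμ i H.iκ
  have h0 := t0_le H n
  intro x hx
  rcases (mem_Yn H).1 hx with h | rfl | rfl | rfl | ⟨l, hl, rfl⟩
  · exact LA_sub ((hγμ.trans H.μt).le.trans h0) h
  · exact ord_LA (lt_of_lt_of_le (hγμ.trans H.μt) h0)
  · exact ord_LA (lt_of_lt_of_le H.μt h0)
  · exact LA_sub h0 (C_mem H)
  · exact ord_LA (cz_mono H.cz hl)

theorem Xn_el (hDC : T_DC) (H : Hyp D i C t s) (n : ℕ) : ElSub (Xn D i C s n) (LA ∅ (t n)) ∧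
    (Xn D i C s n).Nonempty ∧ Yn D i C s n ⊆ Xn D i C s n ∧
    ∀ X, ElSub X (LA ∅ (t n)) → X.Nonempty → Yn D i C s n ⊆ X → Xn D i C s n ⊆ X := by
  rw [Xn_eq H]
  have k := (H.cz n).1
  exact hDC (LA ∅ (t n)) ∅ (t n) k k.mempty rfl _ (Yn_sub H n) (Or.inl rfl)

theorem emp_el {N X : V} (hX : ElSub X N) (k : ZFm (· ∈ N)) (hne : X.Nonempty) : (∅ : V) ∈ X := by
  obtain ⟨w, hw⟩ := hne
  exact cl_el hX k Tm.empty (fun _ => w) fun _ => hw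

theorem LA_el {N X : V} (hX : ElSub X N) (k : ZFm (· ∈ N)) {α : Ordinal.{0}}
    (h : α.toZFSet ∈ X) : LA ∅ α ∈ X := by
  have h1 : LAS ∅ α.toZFSet ∈ X := cl_el hX k (F := fun _ v => LAS ∅ (v 0))
    (Tm.LAS Tm.empty (Tm.var 0)) (fun _ => α.toZFSet) fun _ => h
  rwa [LAS_ord] at h1

/-- the levels below are elements of the hull -/
theorem Nl_mem (hDC : T_DC) (H : Hyp D i C t s) {m n : ℕ} (hmn : m < n) :
    LA ∅ (t m) ∈ Xn D i C s n := by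
  have hX := Xn_el hDC H n
  exact LA_el hX.1 (H.cz n).1 (hX.2.2.1 ((mem_Yn H).2 (Or.inr (Or.inr (Or.inr (Or.inr
    ⟨m, hmn, rfl⟩))))))

/-- the hulls are elements of the later hulls -/
theorem Xn_mem (hDB : T_DB) (hDC : T_DC) (H : Hyp D i C t s) {m n : ℕ} (hmn : m < n) :
    Xn D i C s m ∈ Xn D i C s n := by
  obtain ⟨hel, hne, hYX, -⟩ := Xn_el hDC H n
  have k := (H.cz n).1
  have hg : (D.γ i).toZFSet ∈ Xn D i C s n := hYX ((mem_Yn H).2 (Or.inr (Or.inl rfl)))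
  have hm : (D.μ i).toZFSet ∈ Xn D i C s n := hYX ((mem_Yn H).2 (Or.inr (Or.inr (Or.inl rfl))))
  have hC : C ∈ Xn D i C s n := hYX ((mem_Yn H).2 (Or.inr (Or.inr (Or.inr (Or.inl rfl)))))
  have hf : imS (nS m) (fun l => app s l) ∈ Xn D i C s n := by
    refine fin_cl (P := (· ∈ Xn D i C s n)) (Q := (· ∈ Xn D i C s n)) (emp_el hel k hne) ?_ _ m ?_
    · intro a b ha hb
      exact cl_el hel k (F := fun _ v => insert (v 0) (v 1)) (Tm.ins (Tm.var 0) (Tm.var 1))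
        (cons a fun _ => b) (In.cons (M := (· ∈ Xn D i C s n)) (fun _ => hb) ha)
    · intro l hl
      show app s (nS l) ∈ _
      rw [H.ts]
      exact hYX ((mem_Yn H).2 (Or.inr (Or.inr (Or.inr (Or.inr ⟨l, hl.trans hmn, rfl⟩)))))
  have h1 := cl_el hel k (F := fun _ v => Dcl (v 0) (v 1 ∪ {v 2, v 3, v 4} ∪ v 5))
    (Tm.at2 (F := fun _ x y => Dcl x y) hDB (Tm.var 0) (Tm.union (Tm.union (Tm.var 1)
      (Tm.ins (Tm.var 2) (Tm.ins (Tm.var 3) (Tm.sing (Tm.var 4))))) (Tm.var 5)))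
    (cons (LA ∅ (t m)) (cons (LA ∅ (D.γ i)) (cons (D.γ i).toZFSet (cons (D.μ i).toZFSet
      (cons C fun _ => imS (nS m) fun l => app s l)))))
    (In.cons (M := (· ∈ Xn D i C s n)) (In.cons (M := (· ∈ Xn D i C s n))
      (In.cons (M := (· ∈ Xn D i C s n)) (In.cons (M := (· ∈ Xn D i C s n))
      (In.cons (M := (· ∈ Xn D i C s n)) (fun _ => hf) hC) hm) hg) (LA_el hel k hg))
      (Nl_mem hDC H hmn))
  rw [Xn_eq H m]
  exact h1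

/-- the trace of a later hull on a level is elementary -/
theorem tr_el (hDC : T_DC) (H : Hyp D i C t s) {m n : ℕ} (hmn : m < n) :
    ElSub (Xn D i C s n ∩ LA ∅ (t m)) (LA ∅ (t m)) :=
  inter_el (Xn_el hDC H n).1 (H.cz n).1 (Nl_mem hDC H hmn)

theorem Xn_mono (hDC : T_DC) (H : Hyp D i C t s) {m n : ℕ} (hmn : m ≤ n) :
    Xn D i C s m ⊆ Xn D i C s n := by
  rcases hmn.eq_or_lt with rfl | hmn
  · exact fun _ h => h
  obtain ⟨hel, hne, hYX, hmin⟩ := Xn_el hDC H m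
  have hY : Yn D i C s m ⊆ Xn D i C s n ∩ LA ∅ (t m) := by
    intro x hx
    refine ZFSet.mem_inter.2 ⟨(Xn_el hDC H n).2.2.1 ?_, Yn_sub H m hx⟩
    rcases (mem_Yn H).1 hx with h | h | h | h | ⟨l, hl, h⟩
    · exact (mem_Yn H).2 (Or.inl h)
    · exact (mem_Yn H).2 (Or.inr (Or.inl h))
    · exact (mem_Yn H).2 (Or.inr (Or.inr (Or.inl h)))
    · exact (mem_Yn H).2 (Or.inr (Or.inr (Or.inr (Or.inl h))))
    · exact (mem_Yn H).2 (Or.inr (Or.inr (Or.inr (Or.inr ⟨l, hl.trans hmn, h⟩))))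
  intro x hx
  refine (ZFSet.mem_inter.1 (hmin _ (tr_el hDC H hmn) ⟨C, hY ?_⟩ hY hx)).1
  exact (mem_Yn H).2 (Or.inr (Or.inr (Or.inr (Or.inl rfl))))

/-- the union of the hulls -/
noncomputable def XX (D : Dat) (i : Ordinal.{0}) (C s : V) : V :=
  ⋃₀ (imS om fun n => Xh (D.γ i).toZFSet (D.μ i).toZFSet C s n : ZFSet)

theorem mem_XX {x : V} : x ∈ XX D i C s ↔ ∃ n : ℕ, x ∈ Xn D i C s n := by
  unfold XX
  rw [ZFSet.mem_sUnion]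
  constructor
  · rintro ⟨y, hy, hx⟩
    obtain ⟨n, hn, rfl⟩ := mem_imS.1 hy
    obtain ⟨n, rfl⟩ := mem_om.1 hn
    exact ⟨n, hx⟩
  · rintro ⟨n, hx⟩
    exact ⟨_, mem_imS.2 ⟨nS n, nS_mem_om n, rfl⟩, hx⟩

theorem seq_mem {N : V} (k : ZFm (· ∈ N)) (hDB : T_DB) (hg : (D.γ i).toZFSet ∈ N)
    (hm : (D.μ i).toZFSet ∈ N) (hC : C ∈ N) (hs : s ∈ N) :
    (imS om fun n => Xh (D.γ i).toZFSet (D.μ i).toZFSet C s n) ∈ N ∧
    (resS om fun n => Xh (D.γ i).toZFSet (D.μ i).toZFSet C s n) ∈ N := by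
  have hv : In (· ∈ N) (cons (D.γ i).toZFSet (cons (D.μ i).toZFSet (cons C fun _ => s))) :=
    In.cons (In.cons (In.cons (fun _ => hs) hC) hm) hg
  have h1 := (Tm.image (f := fun _ _ => om) (g := fun _ v => Xh (v 1) (v 2) (v 3) (v 4) (v 0))
    Tm.om (tm_Xh' hDB)).1 (· ∈ N) k _ hv
  have h2 := (Tm.resS (f := fun _ _ => om) (g := fun _ v => Xh (v 1) (v 2) (v 3) (v 4) (v 0))
    Tm.om (tm_Xh' hDB)).1 (· ∈ N) k _ hv
  simp only [cons_zero, cons_succ] at h1 h2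
  exact ⟨h1, h2⟩

/-! ### sizes -/

theorem sm_sing {M : V → Prop} {L a : V} (k : ZFm M) (hL : M L) (hg : Gd L) (ha : M a) :
    Sm M L {a} := by
  have h7 := (pf_DF M k L hL hg).2.2.2.2.2.2.1
  have h1 : ({∅} : V) ∈ L := by
    have h2 : nS 1 ∈ L := hg.tr _ hg.om (nS_mem_om 1)
    rw [nS_succ, nS_zero] at h2
    have e : (insert ∅ ∅ : V) = {∅} := by
      ext z
      simp
    rwa [e] at h2
  have h2 := (pf_DF M k L hL hg).1 _ h1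
  have h3 := (Tm.resS (f := fun _ _ => ({∅} : V)) (g := fun _ w => w 1) (Tm.sing Tm.empty)
    (Tm.var 1)).1 M k (fun _ => a) fun _ => ha
  simp only [cons_succ] at h3
  have h4 := h7 _ _ h2 h3 (svl_resS _ _) (dm_resS _ _)
  have e : rg (resS ({∅} : V) fun _ => a) = {a} := by
    ext z
    rw [mem_rg, ZFSet.mem_singleton]
    constructor
    · rintro ⟨x, hx⟩
      exact (pair_mem_resS.1 hx).2
    · rintro rfl
      exact ⟨∅, pair_mem_resS.2 ⟨ZFSet.mem_singleton.2 rfl, rfl⟩⟩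
  rwa [e] at h4

theorem sm_ins {M : V → Prop} {L a b : V} (k : ZFm M) (hL : M L) (hg : Gd L) (ha : M a)
    (hb : Sm M L b) : Sm M L (insert a b) := by
  have h5 := (pf_DF M k L hL hg).2.2.2.2.1
  have e : (insert a b : V) = {a} ∪ b := by
    ext z
    rw [ZFSet.mem_insert_iff, ZFSet.mem_union, ZFSet.mem_singleton]
  rw [e]
  exact h5 _ _ (sm_sing k hL hg ha) hb

theorem Yn_sm (hGH : T_GH) (H : Hyp D i C t s) (n : ℕ) :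
    Sm D.M (LA ∅ (D.γ i)) (Yn D i C s n) := by
  obtain ⟨hGd, hML, -, -, -⟩ := (hGH D H.ok).1 i H.iκ
  have k : ZFm D.M := H.ok.grd.zfc.toZFm
  have hκθ : D.κ < D.θ := H.ok.grd.κχ.trans H.ok.grd.χθ
  have h2 := (pf_DF D.M k _ hML hGd).2.1
  have h5 := (pf_DF D.M k _ hML hGd).2.2.2.2.1
  have hg : D.M (D.γ i).toZFSet := ord_LA ((H.ok.sz.γκ i H.iκ).trans hκθ)
  have hm : D.M (D.μ i).toZFSet := ord_LA ((H.ok.sz.μκ i H.iκ).trans hκθ)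
  unfold Yn
  refine h5 _ _ (h5 _ _ (h2 _ hML fun _ h => h) ?_) ?_
  · exact sm_ins k hML hGd hg (sm_ins k hML hGd hm (sm_sing k hML hGd H.CM))
  · refine fin_cl (P := Sm D.M (LA ∅ (D.γ i))) (Q := D.M) (Or.inl rfl) ?_ _ n ?_
    · intro a b ha hb
      exact sm_ins k hML hGd ha hb
    · intro l hl
      show D.M (app s (nS l))
      rw [H.ts]
      exact ord_LA ((H.tκ l).trans hκθ)

theorem Xn_sm (hGH : T_GH) (H : Hyp D i C t s) (n : ℕ) :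
    D.M (Xn D i C s n) ∧ Sm D.M (LA ∅ (D.γ i)) (Xn D i C s n) := by
  obtain ⟨hGd, hML, -, -, -⟩ := (hGH D H.ok).1 i H.iκ
  have k : ZFm D.M := H.ok.grd.zfc.toZFm
  have hκθ : D.κ < D.θ := H.ok.grd.κχ.trans H.ok.grd.χθ
  have h8 := (pf_DF D.M k _ hML hGd).2.2.2.2.2.2.2.1
  have h1 : Sm D.M (LA ∅ (D.γ i)) (Xn D i C s n) := by
    rw [Xn_eq H]
    exact h8 _ _ (LA_mem ((H.tκ n).trans hκθ)) (DF.sm_mem k (Yn_sm hGH H n)) (Yn_sm hGH H n)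
  exact ⟨DF.sm_mem k h1, h1⟩

theorem pair_LA {μ : Ordinal.{0}} (hμ : IsSuccLimit μ) {x y : V} (hx : x ∈ LA ∅ μ)
    (hy : y ∈ LA ∅ μ) : ZFSet.pair x y ∈ LA ∅ μ := by
  obtain ⟨α, hα, hxα⟩ := (mem_Lh_limit hμ).1 hx
  obtain ⟨β, hβ, hyβ⟩ := (mem_Lh_limit hμ).1 hy
  have h1 : x ∈ LA ∅ (max α β) := LA_sub (le_max_left _ _) hxα
  have h2 : y ∈ LA ∅ (max α β) := LA_sub (le_max_right _ _) hyβ
  have hm : max α β < μ := max_lt hα hβ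
  have h3 : ({x, y} : V) ∈ LA ∅ (succ (max α β)) :=
    pair_mem_Lh ZFSet.isTransitive_empty (lt_succ _) h1 h2
  have h4 : ({x} : V) ∈ LA ∅ (succ (max α β)) := by
    have := pair_mem_Lh (A := ∅) ZFSet.isTransitive_empty (lt_succ (max α β)) h1 h1
    rwa [ZFSet.pair_eq_singleton] at this
  have h5 := pair_mem_Lh (A := ∅) ZFSet.isTransitive_empty (lt_succ (succ (max α β))) h4 h3
  exact LA_sub (hμ.succ_lt (hμ.succ_lt hm)).le h5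

theorem Xn_tr (hGH : T_GH) (hDC : T_DC) (H : Hyp D i C t s) {n : ℕ} {ν : Ordinal.{0}}
    (hν : ν < D.μ i) (h : ν.toZFSet ∈ Xn D i C s n) : ν.toZFSet ⊆ Xn D i C s n := by
  obtain ⟨hGd, hML, hμl, -, -⟩ := (hGH D H.ok).1 i H.iκ
  obtain ⟨hel, hne, hYX, -⟩ := Xn_el hDC H n
  have k := (H.cz n).1
  have hγμ := H.ok.sz.γμ i H.iκ
  rcases H.ok.sz.sm i H.iκ ν hν with h0 | ⟨f, hf, ho⟩
  · rw [h0]
    intro x hx
    exact absurd hx (ZFSet.notMem_empty _)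
  have hνμ : ν.toZFSet ⊆ LA ∅ (D.μ i) := by
    intro x hx
    obtain ⟨ξ, hξ, rfl⟩ := Ordinal.mem_toZFSet_iff.1 hx
    exact ord_LA (hξ.trans hν)
  have hfμ : f ⊆ LA ∅ (D.μ i) := by
    intro z hz
    obtain ⟨a, ha, b, hb, rfl⟩ := ZFSet.mem_prod.1 (ho.1.1 hz)
    exact pair_LA hμl (LA_sub hγμ.le ha) (hνμ hb)
  have hft : f ∈ LA ∅ (t n) := LA_sub (t0_le H n) (H.pw f hf hfμ)
  have hL : LA ∅ (D.γ i) ∈ Xn D i C s n :=
    LA_el hel k (hYX ((mem_Yn H).2 (Or.inr (Or.inl rfl))))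
  obtain ⟨f', hf', ho'⟩ := ex_el hel k (R := fun _ w => Onto (w 0) (w 1) (w 2))
    (Dfb.onto (Tm.var 0) (Tm.var 1) (Tm.var 2)) (cons (LA ∅ (D.γ i)) fun _ => ν.toZFSet)
    (In.cons (M := (· ∈ Xn D i C s n)) (fun _ => h) hL) ⟨f, hft, ho⟩
  have ho'' : Onto f' (LA ∅ (D.γ i)) ν.toZFSet := ho'
  intro y hy
  obtain ⟨u, hu, huy⟩ := ho''.2 y hy
  have h1 : app f' u = y := app_eq (svl_of_isFunc ho''.1) huy
  rw [← h1]
  exact cl_el hel k (F := fun _ w => app (w 0) (w 1)) (Tm.app (Tm.var 0) (Tm.var 1))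
    (cons f' fun _ => u) (In.cons (M := (· ∈ Xn D i C s n))
      (fun _ => hYX ((mem_Yn H).2 (Or.inl hu))) hf')

/-- the union is small -/
theorem XX_sm (hGH : T_GH) (hDB : T_DB) (H : Hyp D i C t s) :
    XX D i C s ∈ LA ∅ D.κ ∧ Sm D.M (LA ∅ (D.γ i)) (XX D i C s) := by
  obtain ⟨hGd, hML, hμl, -, -⟩ := (hGH D H.ok).1 i H.iκ
  have kZ : ZFCm D.M := H.ok.grd.zfc
  have k : ZFm D.M := kZ.toZFm
  have hκθ : D.κ < D.θ := H.ok.grd.κχ.trans H.ok.grd.χθ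
  have h1 := (pf_DF D.M k _ hML hGd).1
  have h7 := (pf_DF D.M k _ hML hGd).2.2.2.2.2.2.1
  have hCκ : C ∈ LA ∅ D.κ := LA_sub (H.tκ 0).le (C_mem H)
  obtain ⟨hs1, hs2⟩ := seq_mem (D := D) (i := i) H.ok.grd.zκ hDB
    (ord_LA (H.ok.sz.γκ i H.iκ)) (ord_LA (H.ok.sz.μκ i H.iκ)) hCκ H.sκ
  refine ⟨H.ok.grd.zκ.union _ hs1, ?_⟩
  refine pf_DG D.M kZ _ hML hGd _ (LA_sub hκθ.le hs1) ?_ ?_
  · have h2 := h7 _ _ (h1 _ hGd.om) (LA_sub hκθ.le hs2) (svl_resS _ _) (dm_resS _ _)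
    have e : rg (resS om fun n => Xh (D.γ i).toZFSet (D.μ i).toZFSet C s n) =
        imS om fun n => Xh (D.γ i).toZFSet (D.μ i).toZFSet C s n := by
      ext z
      rw [mem_rg, mem_imS]
      constructor
      · rintro ⟨x, hx⟩
        exact ⟨x, (pair_mem_resS.1 hx).1, (pair_mem_resS.1 hx).2.symm⟩
      · rintro ⟨x, hx, h⟩
        exact ⟨x, pair_mem_resS.2 ⟨hx, h.symm⟩⟩
    rwa [e] at h2
  · intro x hx
    obtain ⟨n, hn, rfl⟩ := mem_imS.1 hx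
    obtain ⟨n, rfl⟩ := mem_om.1 hn
    exact (Xn_sm hGH H n).2

/-- the supremum -/
theorem exists_delta (hGH : T_GH) (hDB : T_DB) (hDC : T_DC) (H : Hyp D i C t s) :
    ∃ δ < D.μ i, ∀ ξ < D.μ i, ξ.toZFSet ∈ XX D i C s ↔ ξ < δ := by
  obtain ⟨hGd, hML, hμl, hbd, -⟩ := (hGH D H.ok).1 i H.iκ
  have k : ZFm D.M := H.ok.grd.zfc.toZFm
  have hκθ : D.κ < D.θ := H.ok.grd.κχ.trans H.ok.grd.χθ
  obtain ⟨hXκ, hXs⟩ := XX_sm hGH hDB H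
  have hm : D.M (D.μ i).toZFSet := ord_LA ((H.ok.sz.μκ i H.iκ).trans hκθ)
  have hI : D.M (XX D i C s ∩ (D.μ i).toZFSet) :=
    (Tm.inter (Tm.var 0) (Tm.var 1)).1 D.M k (cons (XX D i C s) fun _ => (D.μ i).toZFSet)
      (In.cons (fun _ => hm) (LA_sub hκθ.le hXκ))
  have h3 := (pf_DF D.M k _ hML hGd).2.2.1 _ _ hI hXs fun x hx => (ZFSet.mem_inter.1 hx).1
  obtain ⟨η, hη, hηX⟩ := hbd _ hI h3 fun x hx => (ZFSet.mem_inter.1 hx).2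
  have hηn : η.toZFSet ∉ XX D i C s := by
    intro h
    have h1 := hηX (ZFSet.mem_inter.2 ⟨h, Ordinal.toZFSet_mem_toZFSet_iff.2 hη⟩)
    exact absurd (Ordinal.toZFSet_mem_toZFSet_iff.1 h1) (lt_irrefl _)
  have hne : {ξ : Ordinal.{0} | ξ.toZFSet ∉ XX D i C s}.Nonempty := ⟨η, hηn⟩
  set δ := sInf {ξ : Ordinal.{0} | ξ.toZFSet ∉ XX D i C s} with hδ
  have hδn : δ.toZFSet ∉ XX D i C s := csInf_mem hne
  have hδη : δ ≤ η := csInf_le' hηn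
  refine ⟨δ, lt_of_le_of_lt hδη hη, fun ξ hξ => ⟨?_, ?_⟩⟩
  · intro h
    by_contra hc
    rw [not_lt] at hc
    obtain ⟨n, hn⟩ := mem_XX.1 h
    rcases hc.eq_or_lt with h1 | h1
    · rw [h1] at hδn
      exact hδn h
    · exact hδn (mem_XX.2 ⟨n, Xn_tr hGH hDC H hξ hn (Ordinal.toZFSet_mem_toZFSet_iff.2 h1)⟩)
  · intro h
    by_contra hc
    exact absurd (csInf_le' (s := {ξ : Ordinal.{0} | ξ.toZFSet ∉ XX D i C s}) hc) (not_le.2 h)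

theorem bounded (hGH : T_GH) (hDB : T_DB) (hDC : T_DC) (H : Hyp D i C t s) {δ : Ordinal.{0}}
    (hδ : ∀ ξ < D.μ i, ξ.toZFSet ∈ XX D i C s ↔ ξ < δ) (n : ℕ) :
    ∃ η < δ, ∀ ξ < D.μ i, ξ.toZFSet ∈ Xn D i C s n → ξ < η := by
  obtain ⟨hGd, hML, hμl, hbd, -⟩ := (hGH D H.ok).1 i H.iκ
  have k : ZFm D.M := H.ok.grd.zfc.toZFm
  have hκθ : D.κ < D.θ := H.ok.grd.κχ.trans H.ok.grd.χθ
  obtain ⟨hXM, hXs⟩ := Xn_sm hGH H n
  have hm : D.M (D.μ i).toZFSet := ord_LA ((H.ok.sz.μκ i H.iκ).trans hκθ)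
  have hI : D.M (Xn D i C s n ∩ (D.μ i).toZFSet) :=
    (Tm.inter (Tm.var 0) (Tm.var 1)).1 D.M k (cons (Xn D i C s n) fun _ => (D.μ i).toZFSet)
      (In.cons (fun _ => hm) hXM)
  have h3 := (pf_DF D.M k _ hML hGd).2.2.1 _ _ hI hXs fun x hx => (ZFSet.mem_inter.1 hx).1
  obtain ⟨η, hη, hηX⟩ := hbd _ hI h3 fun x hx => (ZFSet.mem_inter.1 hx).2
  obtain ⟨hel, hne, hYX, -⟩ := Xn_el hDC H (n + 1)
  have k1 := (H.cz (n + 1)).1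
  have hR : Dfb ZFm (fun _ w => w 0 ∈ w 2 ∧ ∀ ξ ∈ w 1, ξ ∈ w 2 → ξ ∈ w 0) :=
    (Dfb.mem (Tm.var 0) (Tm.var 2)).and ((Dfb.ball (R := fun _ w => w 0 ∈ w 3 → w 0 ∈ w 1)
      ktr_zfm (Tm.var 1) ((Dfb.mem (Tm.var 0) (Tm.var 3)).imp
        (Dfb.mem (Tm.var 0) (Tm.var 1)))).congr fun M k v hv => Iff.rfl)
  obtain ⟨x, hx, h1, h2⟩ := ex_el hel k1 hR (cons (Xn D i C s n) fun _ => (D.μ i).toZFSet)
    (In.cons (M := (· ∈ Xn D i C s (n + 1))) (fun _ => hYX ((mem_Yn H).2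
      (Or.inr (Or.inr (Or.inl rfl))))) (Xn_mem hDB hDC H (Nat.lt_succ_self n)))
    ⟨η.toZFSet, ord_LA (hη.trans (lt_of_lt_of_le H.μt (t0_le H _))),
      Ordinal.toZFSet_mem_toZFSet_iff.2 hη, fun ξ h4 h5 => hηX (ZFSet.mem_inter.2 ⟨h4, h5⟩)⟩
  obtain ⟨η', hη', rfl⟩ := Ordinal.mem_toZFSet_iff.1 (show x ∈ (D.μ i).toZFSet from h1)
  refine ⟨η', (hδ η' hη').1 (mem_XX.2 ⟨n + 1, hx⟩), fun ξ hξ h4 => ?_⟩
  exact Ordinal.toZFSet_mem_toZFSet_iff.1 (h2 ξ.toZFSet h4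
    (Ordinal.toZFSet_mem_toZFSet_iff.2 hξ))

theorem XX_el (hDE : T_DE) (hDC : T_DC) (H : Hyp D i C t s) (n : ℕ) :
    ElSub (XX D i C s ∩ LA ∅ (t n)) (LA ∅ (t n)) := by
  have h2 := hDE.2 (LA ∅ (t n)) (ZFSet.range fun k : ℕ => Xn D i C s (n + 1 + k) ∩ LA ∅ (t n))
    ⟨_, ZFSet.mem_range.2 ⟨0, rfl⟩⟩ ?_ ?_
  · have e : (⋃₀ (ZFSet.range fun k : ℕ => Xn D i C s (n + 1 + k) ∩ LA ∅ (t n)) : ZFSet) =
        XX D i C s ∩ LA ∅ (t n) := by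
      ext x
      rw [ZFSet.mem_sUnion, ZFSet.mem_inter, mem_XX]
      constructor
      · rintro ⟨y, hy, hx⟩
        obtain ⟨k, rfl⟩ := ZFSet.mem_range.1 hy
        exact ⟨⟨_, (ZFSet.mem_inter.1 hx).1⟩, (ZFSet.mem_inter.1 hx).2⟩
      · rintro ⟨⟨j, hj⟩, hx⟩
        exact ⟨_, ZFSet.mem_range.2 ⟨j, rfl⟩, ZFSet.mem_inter.2
          ⟨Xn_mono hDC H (by omega) hj, hx⟩⟩
    rwa [e] at h2
  · intro X hX
    obtain ⟨k, rfl⟩ := ZFSet.mem_range.1 hX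
    exact tr_el hDC H (by omega)
  · intro X hX Y hY
    obtain ⟨k, rfl⟩ := ZFSet.mem_range.1 hX
    obtain ⟨l, rfl⟩ := ZFSet.mem_range.1 hY
    rcases le_total k l with h | h
    · left
      intro x hx
      exact ZFSet.mem_inter.2 ⟨Xn_mono hDC H (by omega) (ZFSet.mem_inter.1 hx).1,
        (ZFSet.mem_inter.1 hx).2⟩
    · right
      intro x hx
      exact ZFSet.mem_inter.2 ⟨Xn_mono hDC H (by omega) (ZFSet.mem_inter.1 hx).1,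
        (ZFSet.mem_inter.1 hx).2⟩

theorem delta_C (hDC : T_DC) (H : Hyp D i C t s) {δ : Ordinal.{0}} (hδμ : δ < D.μ i)
    (hδ : ∀ ξ < D.μ i, ξ.toZFSet ∈ XX D i C s ↔ ξ < δ) (h0 : δ ≠ 0) : δ.toZFSet ∈ C := by
  refine H.cl.cl δ hδμ h0 fun ξ hξ => ?_
  obtain ⟨n, hn⟩ := mem_XX.1 ((hδ ξ (hξ.trans hδμ)).2 hξ)
  obtain ⟨η, hη, hηC⟩ := H.cl.unb ξ (hξ.trans hδμ)
  obtain ⟨hel, hne, hYX, -⟩ := Xn_el hDC H n
  have k := (H.cz n).1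
  have hηt : η.toZFSet ∈ LA ∅ (t n) :=
    tr_LA _ _ (LA_sub (t0_le H n) (C_mem H)) hηC
  obtain ⟨x, hx, h1, h2⟩ := ex_el hel k (R := fun _ w => w 1 ∈ w 0 ∧ w 0 ∈ w 2)
    ((Dfb.mem (Tm.var 1) (Tm.var 0)).and (Dfb.mem (Tm.var 0) (Tm.var 2)))
    (cons ξ.toZFSet fun _ => C) (In.cons (M := (· ∈ Xn D i C s n))
      (fun _ => hYX ((mem_Yn H).2 (Or.inr (Or.inr (Or.inr (Or.inl rfl)))))) hn)
    ⟨η.toZFSet, hηt, Ordinal.toZFSet_mem_toZFSet_iff.2 hη, hηC⟩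
  have h3 : x ∈ C := h2
  obtain ⟨η', hη', rfl⟩ := Ordinal.mem_toZFSet_iff.1 (H.cl.sub h3)
  exact ⟨η', Ordinal.toZFSet_mem_toZFSet_iff.1 (show ξ.toZFSet ∈ η'.toZFSet from h1),
    (hδ η' hη').1 (mem_XX.2 ⟨n, hx⟩), h3⟩

end

theorem sc (hSB : T_SB) (hGH : T_GH) (hDB : T_DB) (hDC : T_DC) (hDE : T_DE) : T_SC := by
  intro D hD i hi C hC hcl
  obtain ⟨hGd, hML, hμlim, hbd, ρ, hρκ, hpw⟩ := (hGH D hD).1 i hi
  have hγμ := hD.sz.γμ i hi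
  have hμκ := hD.sz.μκ i hi
  obtain ⟨t, hcz, htκ, ht0⟩ := exists_cz D.κ (max ρ (D.μ i)) hD.grd.unbκ (max_lt hρκ hμκ)
  obtain ⟨s, hs, hsv, hsd, hst⟩ := hSB D.κ t hD.grd.zκ hcz htκ
  have H : Hyp D i C t s := by
    refine ⟨hD, hi, hC, hcl, hcz, htκ, lt_of_le_of_lt (le_max_right _ _) ht0, hs, hst, ?_⟩
    intro x hx hxμ
    exact LA_sub (lt_of_le_of_lt (le_max_left _ _) ht0).le (hpw x hx hxμ)
  obtain ⟨δ, hδμ, hδ⟩ := exists_delta hGH hDB hDC H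
  have hX0 := (Xn_el hDC H 0).2.2.1
  have hYX : ∀ n, Yn D i C s n ⊆ XX D i C s := fun n x hx =>
    mem_XX.2 ⟨n, (Xn_el hDC H n).2.2.1 hx⟩
  have hγδ : D.γ i < δ := (hδ _ hγμ).1 (hYX 0 ((mem_Yn H).2 (Or.inr (Or.inl rfl))))
  have hδ0 : δ ≠ 0 := by
    rintro rfl
    exact absurd hγδ not_lt_bot
  refine ⟨t, s, XX D i C s, δ, ?_, delta_C hDC H hδμ hδ hδ0⟩
  exact {
    iκ := hi
    sub := hcl.sub
    cz := hcz
    tκ := htκ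
    ts := hst
    sM := hs
    pw := H.pw
    Xe := fun x => mem_XX
    δμ := hδμ
    γδ := hγδ
    Xμ := hδ
    gX := fun x hx => hYX 0 ((mem_Yn H).2 (Or.inl hx))
    mX := hYX 0 ((mem_Yn H).2 (Or.inr (Or.inr (Or.inl rfl))))
    cX := hYX 0 ((mem_Yn H).2 (Or.inr (Or.inr (Or.inr (Or.inl rfl)))))
    tX := fun n => hYX (n + 1) ((mem_Yn H).2 (Or.inr (Or.inr (Or.inr (Or.inr
      ⟨n, Nat.lt_succ_self n, rfl⟩)))))
    el := XX_el hDE hDC H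
    mono := fun n => Xn_mono hDC H (Nat.le_succ n)
    bd := bounded hGH hDB hDC H hδ
    XM := (XX_sm hGH hDB H).1
    Xs := (XX_sm hGH hDB H).2 }

end CAA.H60

namespace CAA

/-- SC -/
theorem pf_SC (hSB : T_SB) (hGH : T_GH) (hDB : T_DB) (hDC : T_DC) (hDE : T_DE) : T_SC :=
  H60.sc hSB hGH hDB hDC hDE

end CAA
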