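import Pool.Agent.H9.CA.TarG

/-! Elementary submodels: tools. -/

set_option linter.unusedVariables false

open Ordinal Order Set
open scoped ZFSet

namespace CAA.H60

open SF CAA

/-- the Tarski–Vaught test -/
theorem tv {Y N : V} (hYN : Y ⊆ N)
    (h : ∀ φ : Fml, ∀ t : ℕ → V, (∀ i, t i ∈ Y) →
      (∃ x, x ∈ N ∧ Sat (· ∈ N) φ (cons x t)) → ∃ x, x ∈ Y ∧ Sat (· ∈ N) φ (cons x t)) :
    ElSub Y N := by
  refine ⟨hYN, fun φ => ?_⟩
  induction φ with
  | mem i j => intro v _; exact Iff.rfl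
  | eq i j => intro v _; exact Iff.rfl
  | prd i => intro v _; exact Iff.rfl
  | neg φ ih => intro v hv; exact not_congr (ih v hv)
  | and φ ψ ih1 ih2 => intro v hv; exact and_congr (ih1 v hv) (ih2 v hv)
  | ex φ ih =>
    intro v hv
    have hc : ∀ x, x ∈ Y → ∀ i, cons x v i ∈ Y := by
      intro x hx i
      cases i with
      | zero => exact hx
      | succ n => exact hv n
    constructor
    · rintro ⟨x, hx, hs⟩
      exact ⟨x, hYN hx, (ih (cons x v) (hc x hx)).1 hs⟩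
    · rintro ⟨x, hx, hs⟩
      obtain ⟨y, hy, hs'⟩ := h φ v hv ⟨x, hx, hs⟩
      exact ⟨y, hy, (ih (cons y v) (hc y hy)).2 hs'⟩

/-- satisfaction in a set, for a fixed formula, is uniformly definable -/
theorem dfb_satN (φ : Fml) : Dfb ZFm (fun _ w => SatP (· ∈ w 0) (fun _ => False) φ
    (fun i => w (i + 1))) := by
  induction φ with
  | mem i j => exact Dfb.mem (Tm.var (i + 1)) (Tm.var (j + 1))
  | eq i j => exact Dfb.eq (Tm.var (i + 1)) (Tm.var (j + 1))
  | prd i => exact Dfb.fls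
  | neg φ ih => exact ih.not
  | and φ ψ ih1 ih2 => exact ih1.and ih2
  | ex φ ih =>
    have h1 := ih.rn (fun i => match i with | 0 => 1 | 1 => 0 | i + 2 => i + 2)
    refine (Dfb.bex ktr_zfm (Tm.var 0) h1).congr fun M k w hw => ?_
    refine exists_congr fun x => and_congr_right fun hx => ?_
    have e : (fun i => cons x w (match (i + 1 : ℕ) with | 0 => 1 | 1 => 0 | i + 2 => i + 2)) =
        cons x fun i => w (i + 1) := by
      funext i
      cases i with
      | zero => rfl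
      | succ n => rfl
    show SatP (· ∈ cons x w 1) (fun _ => False) φ (fun i => cons x w (match (i + 1 : ℕ) with
      | 0 => 1 | 1 => 0 | i + 2 => i + 2)) ↔ _
    rw [e]
    rfl

theorem dfb_satN' (φ : Fml) {f : (V → Prop) → (ℕ → V) → V} {g : ℕ → (V → Prop) → (ℕ → V) → V}
    (hf : Tm ZFm f) (hg : ∀ i, Tm ZFm (g i)) :
    Dfb ZFm (fun M w => Sat (· ∈ f M w) φ (fun i => g i M w)) :=
  ((dfb_satN φ).comp (fun i => match i with | 0 => f | i + 1 => g i) (fun i => by
    cases i with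
    | zero => exact hf
    | succ n => exact hg n)).congr fun M k w hw => Iff.rfl

/-- witnesses in elementary submodels -/
theorem ex_el {N X : V} (hX : ElSub X N) (k : ZFm (· ∈ N)) {R : (V → Prop) → (ℕ → V) → Prop}
    (hR : Dfb ZFm R) (v : ℕ → V) (hv : ∀ i, v i ∈ X) (h : ∃ x ∈ N, R (· ∈ N) (cons x v)) :
    ∃ x ∈ X, R (· ∈ N) (cons x v) := by
  obtain ⟨φ, hφ⟩ := hR
  have hvN : In (· ∈ N) v := fun i => hX.1 (hv i)
  obtain ⟨x, hx, h1⟩ := h
  have h2 : Sat (· ∈ N) (.ex φ) v := ⟨x, hx, (hφ _ k _ (hvN.cons hx)).2 h1⟩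
  obtain ⟨y, hy, h3⟩ := (hX.2 (.ex φ) v hv).2 h2
  have h4 : Sat (· ∈ N) φ (cons y v) := (hX.2 φ _ (In.cons (M := (· ∈ X)) hv hy)).1 h3
  exact ⟨y, hy, (hφ _ k _ (hvN.cons (hX.1 hy))).1 h4⟩

/-- closure of elementary submodels under definable functions -/
theorem cl_el {N X : V} (hX : ElSub X N) (k : ZFm (· ∈ N)) {F : (V → Prop) → (ℕ → V) → V}
    (hF : Tm ZFm F) (v : ℕ → V) (hv : ∀ i, v i ∈ X) : F (· ∈ N) v ∈ X := by
  have hvN : In (· ∈ N) v := fun i => hX.1 (hv i)
  obtain ⟨x, hx, h⟩ := ex_el hX k hF.2 v hv ⟨_, hF.1 _ k v hvN, rfl⟩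
  have h2 : x = F (· ∈ N) v := h
  rwa [← h2]

/-- the part of an elementary submodel in a transitive element -/
theorem inter_el {N' N X : V} (hX : ElSub X N') (k : ZFm (· ∈ N')) (hN : N ∈ X) :
    ElSub (X ∩ N) N := by
  refine tv (fun x hx => (ZFSet.mem_inter.1 hx).2) ?_
  intro φ t ht hex
  have hR : Dfb ZFm (fun M w => w 0 ∈ w 1 ∧
      Sat (· ∈ w 1) φ (fun i => (match i with | 0 => w 0 | i + 1 => w (i + 2)))) := by
    refine (Dfb.mem (Tm.var 0) (Tm.var 1)).and ?_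
    refine (dfb_satN' φ (f := fun _ w => w 1)
      (g := fun i _ w => match i with | 0 => w 0 | i + 1 => w (i + 2)) (Tm.var 1) ?_).congr
      fun M k w hw => Iff.rfl
    intro i
    cases i with
    | zero => exact Tm.var 0
    | succ n => exact Tm.var (n + 2)
  have e : ∀ x, (fun i => (match i with
      | 0 => cons x (cons N t) 0 | i + 1 => cons x (cons N t) (i + 2) : V)) = cons x t := by
    intro x
    funext i
    cases i with
    | zero => rfl
    | succ n => rfl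
  obtain ⟨x, hx, h1⟩ := hex
  obtain ⟨y, hy, h2, h3⟩ := ex_el hX k hR (cons N t) (In.cons (M := (· ∈ X))
    (fun i => (ZFSet.mem_inter.1 (ht i)).1) hN)
    ⟨x, k.trans _ (hX.1 hN) _ hx, hx, by
      rw [e]
      exact h1⟩
  rw [e] at h3
  exact ⟨y, ZFSet.mem_inter.2 ⟨hy, h2⟩, h3⟩

theorem mem_nS {n : ℕ} {x : V} : x ∈ nS n ↔ ∃ l < n, x = nS l := by
  induction n with
  | zero =>
    rw [nS_zero]
    constructor
    · intro h
      exact absurd h (ZFSet.notMem_empty _)
    · rintro ⟨l, hl, -⟩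
      exact absurd hl (Nat.not_lt_zero _)
  | succ n ih =>
    rw [nS_succ, ZFSet.mem_insert_iff, ih]
    constructor
    · rintro (rfl | ⟨l, hl, rfl⟩)
      · exact ⟨n, Nat.lt_succ_self n, rfl⟩
      · exact ⟨l, Nat.lt_succ_of_lt hl, rfl⟩
    · rintro ⟨l, hl, rfl⟩
      rcases Nat.lt_succ_iff_lt_or_eq.1 hl with h | h
      · exact Or.inr ⟨l, h, rfl⟩
      · exact Or.inl (by rw [h])

/-- finite sets of elements -/
theorem fin_cl {P Q : V → Prop} (h0 : P ∅) (h1 : ∀ a b, Q a → P b → P (insert a b)) (F : V → V)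
    (n : ℕ) (h : ∀ l < n, Q (F (nS l))) : P (imS (nS n) F) := by
  induction n with
  | zero =>
    have e : imS (nS 0) F = ∅ := by
      rw [nS_zero]
      refine (ZFSet.eq_empty _).2 fun z hz => ?_
      obtain ⟨x, hx, -⟩ := mem_imS.1 hz
      exact ZFSet.notMem_empty _ hx
    rw [e]
    exact h0
  | succ n ih =>
    have e : imS (nS (n + 1)) F = insert (F (nS n)) (imS (nS n) F) := by
      ext z
      rw [mem_imS, ZFSet.mem_insert_iff, mem_imS, nS_succ]
      constructor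
      · rintro ⟨x, hx, rfl⟩
        rcases ZFSet.mem_insert_iff.1 hx with rfl | hx
        · exact Or.inl rfl
        · exact Or.inr ⟨x, hx, rfl⟩
      · rintro (rfl | ⟨x, hx, rfl⟩)
        · exact ⟨_, ZFSet.mem_insert_iff.2 (Or.inl rfl), rfl⟩
        · exact ⟨x, ZFSet.mem_insert_iff.2 (Or.inr hx), rfl⟩
    rw [e]
    exact h1 _ _ (h n (Nat.lt_succ_self n)) (ih fun l hl => h l (Nat.lt_succ_of_lt hl))

end CAA.H60
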